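import Pool.Agent.T2h42.GE.Stm

/-!
A prime power modulo which many of the ratios are distinct.
-/

set_option autoImplicit false

namespace Pool.Agent.T2h69.GE

open Finset Pool.Agent.TH83.SQ Pool.Agent.T2h42.GD
open scoped Pointwise Classical

variable {ι : Type}

theorem one_lt {x y : ι → ℕ} {W : Finset ι} (h : Pool.Agent.T2h42.GE.Tog x y W) {i : ι}
    (hi : i ∈ W) : 1 < x i * y i := by
  obtain ⟨h1, h2⟩ := h.pos i hi
  by_contra hcon
  have h3 : x i * y i = 1 := by
    have := Nat.mul_pos h1 h2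
    omega
  have h4 := Nat.eq_one_of_mul_eq_one_right h3
  have h5 := Nat.eq_one_of_mul_eq_one_left h3
  exact h.ne i hi (h4.trans h5.symm)

theorem free {x y : ι → ℕ} {W : Finset ι} (h : Pool.Agent.T2h42.GE.Tog x y W) {l : ι}
    (hl : l ∈ W) {p : ℕ} (hp : p.Prime) (hpl : p ∣ x l * y l) : Free x y (W.erase l) p := by
  intro i hi
  obtain ⟨hil, hiW⟩ := Finset.mem_erase.1 hi
  have hc := h.cop i hiW l hl hil
  constructor
  · intro hd
    have h1 : p ∣ x i * y i := hd.mul_right _
    exact Nat.not_coprime_of_dvd_of_dvd hp.one_lt h1 hpl hc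
  · intro hd
    have h1 : p ∣ x i * y i := hd.mul_left _
    exact Nat.not_coprime_of_dvd_of_dvd hp.one_lt h1 hpl hc

theorem diff_ne {x y : ι → ℕ} {W : Finset ι} (h : Pool.Agent.T2h42.GE.Tog x y W) {i j : ι}
    (hi : i ∈ W) (hj : j ∈ W) (hij : i ≠ j) : (x i : ℤ) * y j - x j * y i ≠ 0 := by
  intro h0
  have h1 : x i * y j = x j * y i := by
    have : (x i : ℤ) * y j = x j * y i := by linarith
    exact_mod_cast this
  have hc := h.cop i hi j hj hij
  have hci := h.self i hi
  have hxx : Nat.Coprime (x i) (x j) :=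
    Nat.Coprime.coprime_dvd_left (dvd_mul_right _ _) (Nat.Coprime.coprime_dvd_right
      (dvd_mul_right _ _) hc)
  have hyy : Nat.Coprime (y i) (y j) :=
    Nat.Coprime.coprime_dvd_left (dvd_mul_left _ _) (Nat.Coprime.coprime_dvd_right
      (dvd_mul_left _ _) hc)
  have e1 : x i = 1 := by
    have h2 : Nat.Coprime (x i) (x j * y i) := Nat.Coprime.mul_right hxx hci
    have h3 : x i ∣ x j * y i := ⟨y j, h1.symm⟩
    exact Nat.Coprime.eq_one_of_dvd h2 h3
  have e2 : y i = 1 := by
    have h2 : Nat.Coprime (y i) (x i * y j) := Nat.Coprime.mul_right hci.symm hyy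
    have h3 : y i ∣ x i * y j := ⟨x j, by rw [h1]; ring⟩
    exact Nat.Coprime.eq_one_of_dvd h2 h3
  exact h.ne i hi (e1.trans e2.symm)

/-- few distinct ratios give many coincidences -/
theorem many_pairs' (x y : ι → ℕ) {V : Finset ι} {p : ℕ} (hp : p.Prime) (hf : Free x y V p)
    (e : ℕ) {K : ℕ} (hno : ∀ R ⊆ V, (∀ i ∈ R, ∀ j ∈ R,
      (p : ℤ) ^ e ∣ (x i : ℤ) * y j - x j * y i → i = j) → R.card ≤ K) :
    (V.card : ℝ) ^ 2 ≤ K * (((V ×ˢ V).filter fun w => w.1 ≠ w.2 ∧
      (p : ℤ) ^ e ∣ (x w.1 : ℤ) * y w.2 - x w.2 * y w.1).card + V.card) := by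
  have hq0 : p ^ e ≠ 0 := pow_ne_zero _ hp.ne_zero
  have : NeZero (p ^ e) := ⟨hq0⟩
  have hqc : ((p ^ e : ℕ) : ℤ) = (p : ℤ) ^ e := by push_cast; rfl
  set φ : ι → ZMod (p ^ e) := fun i => (x i : ZMod (p ^ e)) * (y i : ZMod (p ^ e))⁻¹ with hφ
  have hy0 : ∀ i ∈ V, (y i : ZMod (p ^ e)) * (y i : ZMod (p ^ e))⁻¹ = 1 := by
    intro i hi
    refine ZMod.coe_mul_inv_eq_one _ ?_
    exact Nat.Coprime.pow_right _ ((Nat.Prime.coprime_iff_not_dvd hp).2 (hf i hi).2).symm
  have hφi : ∀ i ∈ V, ∀ j ∈ V, (φ i = φ j ↔ (p : ℤ) ^ e ∣ (x i : ℤ) * y j - x j * y i) := by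
    intro i hi j hj
    rw [← hqc, ← ZMod.intCast_zmod_eq_zero_iff_dvd, hφ]
    push_cast
    rw [sub_eq_zero]
    have h1 := hy0 i hi
    have h2 := hy0 j hj
    constructor
    · intro h
      calc (x i : ZMod (p ^ e)) * y j =
          (x i * (y i : ZMod (p ^ e))⁻¹) * (y i * y j) := by linear_combination (-(x i : ZMod (p ^ e)) * y j) * h1
        _ = (x j * (y j : ZMod (p ^ e))⁻¹) * (y i * y j) := by rw [h]
        _ = _ := by linear_combination ((x j : ZMod (p ^ e)) * y i) * h2
    · intro h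
      calc (x i : ZMod (p ^ e)) * (y i : ZMod (p ^ e))⁻¹ =
          (x i * y j) * ((y i : ZMod (p ^ e))⁻¹ * (y j : ZMod (p ^ e))⁻¹) := by
            linear_combination (-(x i : ZMod (p ^ e)) * (y i : ZMod (p ^ e))⁻¹) * h2
        _ = (x j * y i) * ((y i : ZMod (p ^ e))⁻¹ * (y j : ZMod (p ^ e))⁻¹) := by rw [h]
        _ = _ := by linear_combination ((x j : ZMod (p ^ e)) * (y j : ZMod (p ^ e))⁻¹) * h1
  -- few values
  have him : (V.image φ).card ≤ K := by
    rcases V.eq_empty_or_nonempty with hV0 | ⟨i₀, _⟩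
    · rw [hV0]; simp
    haveI : Nonempty ι := ⟨i₀⟩
    have hex : ∀ r ∈ V.image φ, ∃ i ∈ V, φ i = r := fun r hr => by simpa using hr
    choose! g hg1 hg2 using hex
    have h1 : ((V.image φ).image g).card = (V.image φ).card := by
      apply Finset.card_image_of_injOn
      intro r hr r' hr' h
      rw [← hg2 r hr, ← hg2 r' hr', h]
    rw [← h1]
    apply hno
    · intro i hi
      obtain ⟨r, hr, rfl⟩ := Finset.mem_image.1 hi
      exact hg1 r hr
    · intro i hi j hj hd
      obtain ⟨r, hr, rfl⟩ := Finset.mem_image.1 hi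
      obtain ⟨r', hr', rfl⟩ := Finset.mem_image.1 hj
      have h2 := (hφi _ (hg1 r hr) _ (hg1 r' hr')).2 hd
      rw [hg2 r hr, hg2 r' hr'] at h2
      rw [h2]
  set P := (V ×ˢ V).filter fun w => φ w.1 = φ w.2 with hP
  have hPc : ((V.image φ).biUnion fun r => (V.filter fun i => φ i = r) ×ˢ
      (V.filter fun i => φ i = r)) = P := by
    ext ⟨i, j⟩
    simp only [Finset.mem_biUnion, Finset.mem_image, Finset.mem_product, Finset.mem_filter, hP]
    constructor
    · rintro ⟨r, _, ⟨h1, h2⟩, h3, h4⟩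
      exact ⟨⟨h1, h3⟩, h2.trans h4.symm⟩
    · rintro ⟨⟨h1, h2⟩, h3⟩
      exact ⟨φ i, ⟨i, h1, rfl⟩, ⟨h1, rfl⟩, h2, h3.symm⟩
  have h1 : ∑ r ∈ V.image φ, ((V.filter fun i => φ i = r).card) ^ 2 = P.card := by
    rw [← hPc, Finset.card_biUnion]
    · refine Finset.sum_congr rfl fun r _ => ?_
      rw [Finset.card_product, sq]
    · intro r _ r' _ hne
      show Disjoint _ _
      rw [Finset.disjoint_left]
      rintro ⟨i, j⟩ h h'
      rw [Finset.mem_product, Finset.mem_filter] at h h'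
      exact hne (h.1.2.symm.trans h'.1.2)
  have h2 : ∑ r ∈ V.image φ, (V.filter fun i => φ i = r).card = V.card :=
    (Finset.card_eq_sum_card_image φ V).symm
  have h3 : (V.card : ℝ) ^ 2 ≤ (V.image φ).card * P.card := by
    have h4 := sq_sum_le_card_mul_sum_sq (s := V.image φ)
      (f := fun r => ((V.filter fun i => φ i = r).card : ℝ))
    have h5 : ∑ r ∈ V.image φ, ((V.filter fun i => φ i = r).card : ℝ) = V.card := by
      exact_mod_cast h2
    have h6 : ∑ r ∈ V.image φ, ((V.filter fun i => φ i = r).card : ℝ) ^ 2 = P.card := by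
      exact_mod_cast h1
    rw [h5, h6] at h4
    exact h4
  have h4 : P.card ≤ ((V ×ˢ V).filter fun w => w.1 ≠ w.2 ∧
      (p : ℤ) ^ e ∣ (x w.1 : ℤ) * y w.2 - x w.2 * y w.1).card + V.card := by
    have h5 : P ⊆ ((V ×ˢ V).filter fun w => w.1 ≠ w.2 ∧
      (p : ℤ) ^ e ∣ (x w.1 : ℤ) * y w.2 - x w.2 * y w.1) ∪ V.image fun i => (i, i) := by
      rintro ⟨i, j⟩ h
      rw [hP, Finset.mem_filter, Finset.mem_product] at h
      simp only at h
      rw [Finset.mem_union, Finset.mem_filter, Finset.mem_product, Finset.mem_image]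
      by_cases hij : i = j
      · right
        exact ⟨i, h.1.1, by rw [hij]⟩
      · left
        exact ⟨h.1, hij, (hφi i h.1.1 j h.1.2).1 h.2⟩
    exact (Finset.card_le_card h5).trans ((Finset.card_union_le _ _).trans
      (Nat.add_le_add_left Finset.card_image_le _))
  have h5 : (P.card : ℝ) ≤ ((V ×ˢ V).filter fun w => w.1 ≠ w.2 ∧
      (p : ℤ) ^ e ∣ (x w.1 : ℤ) * y w.2 - x w.2 * y w.1).card + V.card := by exact_mod_cast h4
  have h6 : ((V.image φ).card : ℝ) ≤ K := by exact_mod_cast him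
  calc (V.card : ℝ) ^ 2 ≤ (V.image φ).card * P.card := h3
    _ ≤ K * _ := mul_le_mul h6 h5 (Nat.cast_nonneg _) (Nat.cast_nonneg _)


/-- the exponent -/
noncomputable def bb (x y : ι → ℕ) (n : ℕ) (l : ι) (p : ℕ) : ℕ :=
  ((x l * y l).factorization p - 1) / n

theorem g1 : Pool.Agent.T2h42.GE.G1 := by
  intro ι x y W h n K hn hW
  by_contra hcon
  push Not at hcon
  have hn0 : (0 : ℝ) < n := by exact_mod_cast hn
  have hfac : ∀ l ∈ W, ∀ p : ℕ, p.Prime → p ∣ x l * y l → 1 ≤ (x l * y l).factorization p := by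
    intro l hl p hp hpl
    exact (hp.dvd_iff_one_le_factorization (by have := one_lt h hl; omega)).1 hpl
  have hbb : ∀ l ∈ W, ∀ p : ℕ, p.Prime → p ∣ x l * y l →
      n * bb x y n l p + 1 ≤ (x l * y l).factorization p ∧
      (x l * y l).factorization p ≤ (bb x y n l p + 1) * n := by
    intro l hl p hp hpl
    have h1 := hfac l hl p hp hpl
    unfold bb
    have h2 := Nat.div_add_mod ((x l * y l).factorization p - 1) n
    have h3 := Nat.mod_lt ((x l * y l).factorization p - 1) hn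
    constructor
    · omega
    · have h4 : (((x l * y l).factorization p - 1) / n + 1) * n =
        n * (((x l * y l).factorization p - 1) / n) + n := by ring
      rw [h4]
      omega
  have hno : ∀ l ∈ W, ∀ p : ℕ, p.Prime → p ∣ x l * y l → ∀ R ⊆ W.erase l,
      (∀ i ∈ R, ∀ j ∈ R, (p : ℤ) ^ (bb x y n l p + 1) ∣ (x i : ℤ) * y j - x j * y i → i = j) →
      R.card ≤ K := by
    intro l hl p hp hpl R hR hd
    by_contra hlt
    obtain ⟨i, hi, j, hj, h1, h2⟩ := hcon l hl p (bb x y n l p) hp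
      ((pow_dvd_pow _ (hbb l hl p hp hpl).1).trans (Nat.ordProj_dvd _ _)) R hR (not_le.1 hlt)
    exact h2 (hd i hi j hj h1)
  set m : ℝ := (W.card : ℝ) - 1 with hm
  have hWc : ((2 * (n : ℝ) + 1) * K + 2) ≤ W.card := by exact_mod_cast hW
  have hm0 : 0 < m := by
    rw [hm]
    have : (0:ℝ) ≤ (2 * (n : ℝ) + 1) * K := by positivity
    linarith
  have hW2 : 2 ≤ W.card := le_trans (Nat.le_add_left _ _) hW
  have hK0 : 0 < K := by
    rcases Nat.eq_zero_or_pos K with h0 | h0
    · exfalso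
      have hn : W.Nonempty := by
        rw [← Finset.card_pos]; omega
      obtain ⟨l, hl⟩ := hn
      obtain ⟨p, hp, hpl⟩ := Nat.exists_prime_and_dvd (one_lt h hl).ne'
      have h2 : (W.erase l).Nonempty := by
        rw [← Finset.card_pos, Finset.card_erase_of_mem hl]; omega
      obtain ⟨i, hi⟩ := h2
      have := hno l hl p hp hpl {i} (Finset.singleton_subset_iff.2 hi) (by simp)
      simp at this
      omega
    · exact h0
  have hK0' : (0 : ℝ) < K := by exact_mod_cast hK0
  set E : ι → ℕ → Finset (ι × ι) := fun l p => ((W.erase l) ×ˢ (W.erase l)).filter fun w =>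
    w.1 ≠ w.2 ∧ (p : ℤ) ^ (bb x y n l p + 1) ∣ (x w.1 : ℤ) * y w.2 - x w.2 * y w.1 with hE
  set wt : ι → ℕ → ℝ := fun l p => ((bb x y n l p : ℝ) + 1) * Real.log (p : ℝ) with hwt
  have hwt0 : ∀ l p, 0 ≤ wt l p := fun l p =>
    mul_nonneg (by positivity) (Real.log_natCast_nonneg _)
  have hlog : ∀ i ∈ W, 0 < Real.log ((x i * y i : ℕ) : ℝ) := fun i hi =>
    Real.log_pos (by exact_mod_cast one_lt h hi)
  set L : ℝ := ∑ i ∈ W, Real.log ((x i * y i : ℕ) : ℝ) with hL
  have hL0 : 0 < L := Finset.sum_pos hlog (by rw [← Finset.card_pos]; omega)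
  have hsum : ∀ l ∈ W, Real.log ((x l * y l : ℕ) : ℝ) ≤
      n * ∑ p ∈ (x l * y l).primeFactors, wt l p := by
    intro l hl
    have h0 : x l * y l ≠ 0 := by have := one_lt h hl; omega
    have h1 : ((x l * y l : ℕ) : ℝ) =
        ∏ p ∈ (x l * y l).primeFactors, (p : ℝ) ^ (x l * y l).factorization p := by
      conv_lhs => rw [← Nat.factorization_prod_pow_eq_self h0]
      rw [Finsupp.prod, Nat.support_factorization]
      push_cast
      rfl
    rw [h1, Real.log_prod (fun p hp => pow_ne_zero _ (by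
      exact_mod_cast (Nat.prime_of_mem_primeFactors hp).ne_zero)), Finset.mul_sum]
    refine Finset.sum_le_sum fun p hp => ?_
    have hpp := Nat.prime_of_mem_primeFactors hp
    have h2 := (hbb l hl p hpp (Nat.dvd_of_mem_primeFactors hp)).2
    have h3 : ((x l * y l).factorization p : ℝ) ≤ ((bb x y n l p : ℝ) + 1) * n := by
      exact_mod_cast h2
    rw [Real.log_pow, hwt]
    have h4 := mul_le_mul_of_nonneg_right h3 (Real.log_natCast_nonneg p)
    linarith
  -- lower bound
  have hmK : 0 ≤ m * (m / K - 1) := by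
    have h1 : (K : ℝ) ≤ m := by
      have : (K : ℝ) ≤ (2 * (n : ℝ) + 1) * K := by nlinarith
      rw [hm]
      linarith
    have h2 : 1 ≤ m / K := by rwa [le_div_iff₀ hK0', one_mul]
    exact mul_nonneg hm0.le (by linarith)
  have hlow : L * (m * (m / K - 1)) ≤ n * ∑ l ∈ W, ∑ p ∈ (x l * y l).primeFactors,
      wt l p * (E l p).card := by
    rw [hL, Finset.sum_mul, Finset.mul_sum]
    refine Finset.sum_le_sum fun l hl => ?_
    refine (mul_le_mul_of_nonneg_right (hsum l hl) hmK).trans ?_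
    rw [mul_assoc, Finset.sum_mul]
    refine mul_le_mul_of_nonneg_left ?_ hn0.le
    refine Finset.sum_le_sum fun p hp => ?_
    have hpp := Nat.prime_of_mem_primeFactors hp
    have hpd := Nat.dvd_of_mem_primeFactors hp
    have h1 := many_pairs' x y hpp (free h hl hpp hpd) _ (hno l hl p hpp hpd)
    have h2 : ((W.erase l).card : ℝ) = m := by
      rw [Finset.card_erase_of_mem hl, hm]
      have : 1 ≤ W.card := by omega
      push_cast [Nat.cast_sub this]
      ring
    rw [h2] at h1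
    have h3 : m * (m / K - 1) ≤ (E l p).card := by
      have h4 : m ^ 2 / K ≤ (E l p).card + m := by
        rw [div_le_iff₀ hK0']
        linarith
      have h5 : m * (m / K - 1) = m ^ 2 / K - m := by ring
      linarith
    exact mul_le_mul_of_nonneg_left h3 (hwt0 _ _)
  -- upper bound
  have hup : ∑ l ∈ W, ∑ p ∈ (x l * y l).primeFactors, wt l p * (E l p).card ≤
      2 * m * L := by
    have h1 : ∑ l ∈ W, ∑ p ∈ (x l * y l).primeFactors, wt l p * (E l p).card =
        ∑ w ∈ (W ×ˢ W).filter (fun w => w.1 ≠ w.2), ∑ l ∈ W, ∑ p ∈ (x l * y l).primeFactors,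
          if w ∈ E l p then wt l p else 0 := by
      rw [Finset.sum_comm]
      refine Finset.sum_congr rfl fun l hl => ?_
      rw [Finset.sum_comm]
      refine Finset.sum_congr rfl fun p hp => ?_
      rw [← Finset.sum_filter, Finset.sum_const, nsmul_eq_mul, mul_comm]
      congr 2
      congr 1
      ext w
      simp only [hE, Finset.mem_filter, Finset.mem_product, Finset.mem_erase]
      constructor
      · rintro ⟨⟨⟨a1, a2⟩, a3, a4⟩, a5, a6⟩
        exact ⟨⟨⟨a2, a4⟩, a5⟩, ⟨⟨a1, a2⟩, a3, a4⟩, a5, a6⟩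
      · rintro ⟨_, h⟩
        exact h
    rw [h1]
    have h2 : ∀ w ∈ (W ×ˢ W).filter (fun w => w.1 ≠ w.2), (∑ l ∈ W,
        ∑ p ∈ (x l * y l).primeFactors, if w ∈ E l p then wt l p else 0) ≤
        Real.log ((x w.1 * y w.1 : ℕ) : ℝ) + Real.log ((x w.2 * y w.2 : ℕ) : ℝ) := by
      rintro ⟨i, j⟩ hw
      rw [Finset.mem_filter, Finset.mem_product] at hw
      obtain ⟨⟨hi, hj⟩, hij⟩ := hw
      simp only at hi hj hij ⊢
      set z : ℤ := (x i : ℤ) * y j - x j * y i with hz
      have hz0 : z ≠ 0 := diff_ne h hi hj hij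
      set G : Finset (Σ _ : ι, ℕ) := (W.sigma fun l => (x l * y l).primeFactors).filter fun w =>
        (i, j) ∈ E w.1 w.2 with hG
      have h3 : ∑ l ∈ W, ∑ p ∈ (x l * y l).primeFactors,
          (if (i, j) ∈ E l p then wt l p else 0) = ∑ w ∈ G, wt w.1 w.2 := by
        rw [hG, Finset.sum_filter, Finset.sum_sigma]
      rw [h3]
      have hGm : ∀ w ∈ G, w.1 ∈ W ∧ w.2.Prime ∧ w.2 ∣ x w.1 * y w.1 ∧
          (w.2 : ℤ) ^ (bb x y n w.1 w.2 + 1) ∣ z := by
        intro w hw
        rw [hG, Finset.mem_filter, Finset.mem_sigma] at hw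
        exact ⟨hw.1.1, Nat.prime_of_mem_primeFactors hw.1.2, Nat.dvd_of_mem_primeFactors hw.1.2,
          (Finset.mem_filter.1 hw.2).2.2⟩
      have h4 : ∑ w ∈ G, wt w.1 w.2 ≤ Real.log (z.natAbs : ℝ) := by
        have a1 : ∏ w ∈ G, (w.2 : ℤ) ^ (bb x y n w.1 w.2 + 1) ∣ z := by
          refine Finset.prod_dvd_of_coprime ?_ (fun w hw => (hGm w hw).2.2.2)
          rintro ⟨l, p⟩ hw ⟨l', p'⟩ hw' hne
          obtain ⟨b1, b2, b3, -⟩ := hGm _ hw
          obtain ⟨b1', b2', b3', -⟩ := hGm _ hw'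
          simp only at b1 b2 b3 b1' b2' b3'
          show IsCoprime ((p : ℤ) ^ _) ((p' : ℤ) ^ _)
          refine IsCoprime.pow ?_
          rw [Nat.isCoprime_iff_coprime, Nat.coprime_primes b2 b2']
          rintro rfl
          by_cases hll : l = l'
          · subst hll
            exact hne rfl
          · exact Nat.not_coprime_of_dvd_of_dvd b2.one_lt b3 b3' (h.cop l b1 l' b1' hll)
        have a2 : (∏ w ∈ G, w.2 ^ (bb x y n w.1 w.2 + 1)) ∣ z.natAbs := by
          rw [← Int.natCast_dvd]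
          push_cast
          exact a1
        have a3 : ∏ w ∈ G, w.2 ^ (bb x y n w.1 w.2 + 1) ≤ z.natAbs :=
          Nat.le_of_dvd (Int.natAbs_pos.2 hz0) a2
        have a4 : ∑ w ∈ G, wt w.1 w.2 =
            Real.log ((∏ w ∈ G, w.2 ^ (bb x y n w.1 w.2 + 1) : ℕ) : ℝ) := by
          push_cast
          rw [Real.log_prod]
          · refine Finset.sum_congr rfl fun w _ => ?_
            rw [Real.log_pow, hwt]
            push_cast
            ring
          · intro w hw
            exact pow_ne_zero _ (by exact_mod_cast (hGm w hw).2.1.ne_zero)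
        rw [a4]
        apply Real.log_le_log
        · exact_mod_cast Finset.prod_pos fun w hw => pow_pos (hGm w hw).2.1.pos _
        · exact_mod_cast a3
      refine h4.trans ?_
      obtain ⟨xi, yi⟩ := h.pos i hi
      obtain ⟨xj, yj⟩ := h.pos j hj
      rw [← Real.log_mul (by positivity) (by positivity)]
      apply Real.log_le_log
      · exact_mod_cast Int.natAbs_pos.2 hz0
      · have h5 : z.natAbs ≤ (x i * y i) * (x j * y j) := by
          have b1 : x i * y j ≤ (x i * y i) * (x j * y j) := by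
            calc x i * y j = x i * 1 * (1 * y j) := by ring
              _ ≤ (x i * y i) * (x j * y j) :=
                Nat.mul_le_mul (Nat.mul_le_mul_left _ yi) (Nat.mul_le_mul_right _ xj)
          have b2 : x j * y i ≤ (x i * y i) * (x j * y j) := by
            calc x j * y i = (1 * y i) * (x j * 1) := by ring
              _ ≤ (x i * y i) * (x j * y j) :=
                Nat.mul_le_mul (Nat.mul_le_mul_right _ xi) (Nat.mul_le_mul_left _ yj)
          have b3 : z = ((x i * y j : ℕ) : ℤ) - ((x j * y i : ℕ) : ℤ) := by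
            rw [hz]; push_cast; ring
          omega
        exact_mod_cast h5
    refine (Finset.sum_le_sum h2).trans ?_
    have h6 : ∀ f : ι → ℝ, ∑ w ∈ (W ×ˢ W).filter (fun w => w.1 ≠ w.2), f w.1 =
        m * ∑ i ∈ W, f i := by
      intro f
      rw [Finset.sum_filter, Finset.sum_product, Finset.mul_sum]
      refine Finset.sum_congr rfl fun i hi => ?_
      rw [← Finset.sum_filter]
      show ∑ a ∈ W.filter (fun j => i ≠ j), f i = m * f i
      rw [Finset.sum_const, nsmul_eq_mul]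
      congr 1
      have : W.filter (fun j => i ≠ j) = W.erase i := by
        ext j; simp only [Finset.mem_filter, Finset.mem_erase]; tauto
      rw [this, Finset.card_erase_of_mem hi, hm]
      have : 1 ≤ W.card := by omega
      push_cast [Nat.cast_sub this]
      ring
    have h7 : ∀ f : ι → ℝ, ∑ w ∈ (W ×ˢ W).filter (fun w => w.1 ≠ w.2), f w.2 =
        m * ∑ i ∈ W, f i := by
      intro f
      rw [← h6 f]
      refine Finset.sum_bij' (fun w _ => (w.2, w.1)) (fun w _ => (w.2, w.1)) ?_ ?_ ?_ ?_ ?_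
      · rintro ⟨a, b⟩ hw
        simp only [Finset.mem_filter, Finset.mem_product] at hw ⊢
        exact ⟨⟨hw.1.2, hw.1.1⟩, Ne.symm hw.2⟩
      · rintro ⟨a, b⟩ hw
        simp only [Finset.mem_filter, Finset.mem_product] at hw ⊢
        exact ⟨⟨hw.1.2, hw.1.1⟩, Ne.symm hw.2⟩
      · rintro ⟨a, b⟩ _; rfl
      · rintro ⟨a, b⟩ _; rfl
      · rintro ⟨a, b⟩ _; rfl
    rw [Finset.sum_add_distrib, h6 (fun i => Real.log ((x i * y i : ℕ) : ℝ)),
      h7 (fun i => Real.log ((x i * y i : ℕ) : ℝ)), ← hL]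
    linarith
  have h8 := hlow.trans (mul_le_mul_of_nonneg_left hup hn0.le)
  have h9 : m * (m / K - 1) ≤ n * (2 * m) := by
    have : L * (m * (m / K - 1)) ≤ L * (n * (2 * m)) := by linarith
    exact le_of_mul_le_mul_left this hL0
  have h10 : m / K - 1 ≤ 2 * n := by
    have : m * (m / K - 1) ≤ m * (2 * n) := by linarith
    exact le_of_mul_le_mul_left this hm0
  have h11 : m ≤ (2 * n + 1) * K := by
    have : m / K ≤ 2 * n + 1 := by linarith
    rwa [div_le_iff₀ hK0'] at this
  rw [hm] at h11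
  linarith

end Pool.Agent.T2h69.GE
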