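import Pool.Agent.T2h42.GE.Stm

/-!
The multipliers are spread modulo a prime power if many of the ratios are distinct.
-/

set_option autoImplicit false

namespace Pool.Agent.T2h69.GE

open Finset Pool.Agent.TH83.SQ Pool.Agent.T2h42.GD
open scoped Pointwise Classical

theorem g2 : Pool.Agent.T2h42.GE.G2 := by
  intro ι x y W R p hp hf hR e K hK0 hK hd r
  have hq0 : p ^ e ≠ 0 := pow_ne_zero _ hp.ne_zero
  have : NeZero (p ^ e) := ⟨hq0⟩
  have hqc : ((p ^ e : ℕ) : ℤ) = (p : ℤ) ^ e := by push_cast; rfl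
  set S := W.powerset.filter fun s => ((p : ℤ) ^ e) ∣ dm x y W s - r with hS
  have hSm : ∀ s ∈ S, s ⊆ W ∧ ((dm x y W s : ℤ) : ZMod (p ^ e)) = r := by
    intro s hs
    rw [hS, Finset.mem_filter, Finset.mem_powerset] at hs
    refine ⟨hs.1, ?_⟩
    rw [← sub_eq_zero, ← Int.cast_sub, ZMod.intCast_zmod_eq_zero_iff_dvd, hqc]
    exact hs.2
  have hne : ∀ s ⊆ W, IsUnit ((dm x y W s : ℤ) : ZMod (p ^ e)) := by
    intro s hs
    have h1 : IsCoprime ((p : ℤ) ^ e) (dm x y W s) := (dm_cop hp hf hs).pow_left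
    obtain ⟨a, b, hab⟩ := h1
    have h2 := congrArg (fun z : ℤ => (z : ZMod (p ^ e))) hab
    simp only [Int.cast_add, Int.cast_mul, Int.cast_one] at h2
    have h3 : (((p : ℤ) ^ e : ℤ) : ZMod (p ^ e)) = 0 := by
      rw [ZMod.intCast_zmod_eq_zero_iff_dvd, hqc]
    rw [h3, mul_zero, zero_add] at h2
    exact IsUnit.of_mul_eq_one _ (by rw [mul_comm]; exact h2)
  have hz : ∀ i ∈ R, ∀ j ∈ R, ((x i : ZMod (p ^ e))) * y j = x j * y i → i = j := by
    intro i hi j hj h
    apply hd i hi j hj
    rw [← hqc, ← ZMod.intCast_zmod_eq_zero_iff_dvd]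
    push_cast
    rw [h, sub_self]
  have herase : ∀ s ⊆ W, ∀ i ∈ s, (y i : ZMod (p ^ e)) * ((dm x y W s : ℤ) : ZMod (p ^ e)) =
      (x i : ZMod (p ^ e)) * ((dm x y W (s.erase i) : ℤ) : ZMod (p ^ e)) := by
    intro s hs i hi
    have := congrArg (fun z : ℤ => (z : ZMod (p ^ e))) (dm_erase x y hs hi)
    push_cast at this
    exact this
  have h1 : ∑ s ∈ S, (s ∩ R).card ≤ 2 ^ W.card := by
    rw [← Finset.card_sigma, ← Finset.card_powerset]
    refine Finset.card_le_card_of_injOn (fun x => x.1.erase x.2) ?_ ?_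
    · intro z hx
      rw [Finset.mem_coe, Finset.mem_sigma] at hx
      rw [Finset.mem_coe, Finset.mem_powerset]
      exact (Finset.erase_subset _ _).trans (hSm _ hx.1).1
    · rintro ⟨s, q⟩ hx ⟨s', q'⟩ hx' h
      rw [Finset.mem_coe, Finset.mem_sigma] at hx hx'
      simp only [Finset.mem_inter] at h hx hx'
      obtain ⟨hs, hr⟩ := hSm _ hx.1
      obtain ⟨hs', hr'⟩ := hSm _ hx'.1
      have e1 := herase s hs q hx.2.1
      have e2 := herase s' hs' q' hx'.2.1
      rw [← h] at e2
      rw [hr] at e1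
      rw [hr'] at e2
      have hu := hne (s.erase q) ((Finset.erase_subset q s).trans hs)
      have e4 : q = q' := by
        apply hz q hx.2.2 q' hx'.2.2
        apply hu.mul_right_cancel
        calc (x q : ZMod (p ^ e)) * y q' * ((dm x y W (s.erase q) : ℤ) : ZMod (p ^ e)) =
            y q' * ((x q : ZMod (p ^ e)) * ((dm x y W (s.erase q) : ℤ) : ZMod (p ^ e))) := by ring
          _ = y q' * (y q * r) := by rw [e1]
          _ = y q * (y q' * r) := by ring
          _ = y q * ((x q' : ZMod (p ^ e)) * ((dm x y W (s.erase q) : ℤ) : ZMod (p ^ e))) := by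
            rw [e2]
          _ = _ := by ring
      subst e4
      have e5 : s = s' := by
        rw [← Finset.insert_erase hx.2.1, h, Finset.insert_erase hx'.2.1]
      subst e5
      rfl
  have h2 : ∑ s ∈ S, (R \ s).card ≤ 2 ^ W.card := by
    rw [← Finset.card_sigma, ← Finset.card_powerset]
    refine Finset.card_le_card_of_injOn (fun x => insert x.2 x.1) ?_ ?_
    · intro z hx
      rw [Finset.mem_coe, Finset.mem_sigma] at hx
      rw [Finset.mem_coe, Finset.mem_powerset]
      exact Finset.insert_subset (hR (Finset.mem_sdiff.1 hx.2).1) (hSm _ hx.1).1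
    · rintro ⟨s, q⟩ hx ⟨s', q'⟩ hx' h
      rw [Finset.mem_coe, Finset.mem_sigma] at hx hx'
      simp only at h hx hx'
      obtain ⟨hs, hr⟩ := hSm _ hx.1
      obtain ⟨hs', hr'⟩ := hSm _ hx'.1
      obtain ⟨hq1, hq2⟩ := Finset.mem_sdiff.1 hx.2
      obtain ⟨hq1', hq2'⟩ := Finset.mem_sdiff.1 hx'.2
      have e1 := herase (insert q s) (Finset.insert_subset (hR hq1) hs) q
        (Finset.mem_insert_self _ _)
      have e2 := herase (insert q' s') (Finset.insert_subset (hR hq1') hs') q'
        (Finset.mem_insert_self _ _)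
      rw [Finset.erase_insert hq2, hr] at e1
      rw [Finset.erase_insert hq2', hr', ← h] at e2
      have hu := hne (insert q s) (Finset.insert_subset (hR hq1) hs)
      have e4 : q = q' := by
        apply hz q hq1 q' hq1'
        apply hu.mul_right_cancel
        have hur : IsUnit (r : ZMod (p ^ e)) := by rw [← hr]; exact hne s hs
        apply hur.mul_right_cancel
        calc (x q : ZMod (p ^ e)) * y q' * ((dm x y W (insert q s) : ℤ) : ZMod (p ^ e)) * r =
            (x q * r) * (y q' * ((dm x y W (insert q s) : ℤ) : ZMod (p ^ e))) := by ring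
          _ = (y q * ((dm x y W (insert q s) : ℤ) : ZMod (p ^ e))) * (x q' * r) := by rw [e1, e2]
          _ = _ := by ring
      subst e4
      have e5 : s = s' := by
        rw [← Finset.erase_insert hq2, h, Finset.erase_insert hq2']
      subst e5
      rfl
  have h3 : ∑ s ∈ S, (s ∩ R).card + ∑ s ∈ S, (R \ s).card = R.card * S.card := by
    rw [← Finset.sum_add_distrib, mul_comm, ← smul_eq_mul, ← Finset.sum_const]
    refine Finset.sum_congr rfl fun s hs => ?_
    rw [add_comm, Finset.inter_comm]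
    exact Finset.card_sdiff_add_card_inter R s
  have h4 : K * S.card ≤ 2 * 2 ^ W.card := (Nat.mul_le_mul_right _ hK).trans (by omega)
  have hK' : (0 : ℝ) < K := by exact_mod_cast hK0
  rw [div_mul_eq_mul_div, le_div_iff₀ hK']
  have h5 : (K : ℝ) * S.card ≤ 2 * 2 ^ W.card := by exact_mod_cast h4
  linarith

end Pool.Agent.T2h69.GE
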