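import Pool.Agent.T2h42.GE.Stm

/-!
The case of spread multipliers, classes modulo prime powers.
-/

set_option autoImplicit false

namespace Pool.Agent.T2h69.GE

open Finset Pool.Agent.TH83.SQ Pool.Agent.T2h42.GD
open scoped Pointwise Classical

theorem pow_dvd_of {p : ℕ} (hp : p.Prime) {I b : ℕ} {a c : ℤ} (h : (p : ℤ) ^ (I + b) ∣ a * c)
    (ha : ¬ (p : ℤ) ^ (b + 1) ∣ a) : (p : ℤ) ^ I ∣ c := by
  have hpr : Prime (p : ℤ) := Nat.prime_iff_prime_int.1 hp
  have ha0 : a ≠ 0 := by
    rintro rfl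
    exact ha (dvd_zero _)
  have hfin : FiniteMultiplicity (p : ℤ) a := by
    rw [Int.finiteMultiplicity_iff]
    exact ⟨by simpa using hp.ne_one, ha0⟩
  obtain ⟨a', ha', hna⟩ := hfin.exists_eq_pow_mul_and_not_dvd
  set k := multiplicity (p : ℤ) a with hk
  have hkb : k ≤ b := by
    by_contra hcon
    apply ha
    rw [ha']
    exact (pow_dvd_pow _ (by omega)).mul_right _
  have h1 : (p : ℤ) ^ k * (p : ℤ) ^ (I + b - k) ∣ (p : ℤ) ^ k * (a' * c) := by
    rw [← pow_add, show k + (I + b - k) = I + b by omega]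
    rw [ha', mul_assoc] at h
    exact h
  have h2 : (p : ℤ) ^ (I + b - k) ∣ a' * c :=
    (mul_dvd_mul_iff_left (pow_ne_zero k hpr.ne_zero)).1 h1
  have h3 : IsCoprime ((p : ℤ) ^ (I + b - k)) a' :=
    IsCoprime.pow_left (hpr.coprime_iff_not_dvd.2 hna)
  exact (pow_dvd_pow _ (by omega)).trans (h3.dvd_of_dvd_mul_left h2)

theorem g3 : Pool.Agent.T2h42.GE.G3 := by
  intro ι x y W p hp κ hκ0 b hκ X B I T hT hTn hTi U hU hUn hUi β hβ
  have hTc : (0 : ℝ) < T.card := by exact_mod_cast hTn.card_pos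
  have hUc : (0 : ℝ) < U.card := by exact_mod_cast hUn.card_pos
  set Q : ℤ := (p : ℤ) ^ (I + b) with hQ
  set V : Finset (ℤ × ℤ) := T ×ˢ U with hV
  have hVn : V.Nonempty := hTn.product hUn
  have hVc : (V.card : ℝ) = T.card * U.card := by rw [hV, Finset.card_product]; push_cast; ring
  have hVc0 : (0 : ℝ) < V.card := by rw [hVc]; positivity
  have hVc1 : (1 : ℝ) ≤ V.card := by exact_mod_cast hVn.card_pos
  -- the pieces
  set D : ℤ → ℤ × ℤ → Finset ℤ := fun d w => dil d (cls Q X w.1) + cls Q B w.2 with hD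
  have hDne : ∀ d, ∀ w ∈ V, (D d w).Nonempty := by
    intro d w hw
    rw [hV, Finset.mem_product] at hw
    refine Finset.Nonempty.add ?_ ?_
    · refine Finset.Nonempty.image ⟨w.1, ?_⟩ _
      rw [cls, Finset.mem_filter]
      exact ⟨hT hw.1, by simp⟩
    · refine ⟨w.2, ?_⟩
      rw [cls, Finset.mem_filter]
      exact ⟨hU hw.2, by simp⟩
  have hDsub : ∀ d, ∀ w ∈ V, D d w ⊆ dil d X + B := by
    intro d w _
    refine Finset.add_subset_add ?_ (Finset.filter_subset _ _)
    exact Finset.image_subset_image (Finset.filter_subset _ _)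
  set e : Finset ι → ℤ := fun s => dm x y W s with he
  -- good sets
  set good : Finset ι → Prop := fun s => ∀ w ∈ V, ∀ w' ∈ V,
    Q ∣ e s * (w.1 - w'.1) + (w.2 - w'.2) → w = w' with hgood
  have hbad_case : ∀ s, (∑ w ∈ V, Real.log ((D (e s) w).card : ℝ)) / V.card ≤
      Real.log ((dil (e s) X + B).card : ℝ) := by
    intro s
    rw [div_le_iff₀ hVc0, mul_comm, ← nsmul_eq_mul, ← Finset.sum_const]
    refine Finset.sum_le_sum fun w hw => ?_
    refine Real.log_le_log (by exact_mod_cast (hDne _ w hw).card_pos) ?_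
    exact_mod_cast Finset.card_le_card (hDsub _ w hw)
  have hgood_case : ∀ s, good s → Real.log V.card +
      (∑ w ∈ V, Real.log ((D (e s) w).card : ℝ)) / V.card ≤
      Real.log ((dil (e s) X + B).card : ℝ) := by
    intro s hs
    refine (Pool.Agent.TH828.SQ1822.log_mean V hVn (fun w => ((D (e s) w).card : ℝ))
      fun w hw => by exact_mod_cast (hDne _ w hw).card_pos).trans ?_
    refine Real.log_le_log (Finset.sum_pos (fun w hw => by
      exact_mod_cast (hDne _ w hw).card_pos) hVn) ?_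
    have hdisj : ∀ w ∈ V, ∀ w' ∈ V, w ≠ w' → Disjoint (D (e s) w) (D (e s) w') := by
      intro w hw w' hw' hne
      rw [Finset.disjoint_left]
      intro z hx hx'
      apply hne
      refine hs w hw w' hw' ?_
      obtain ⟨y', hy, b, hb, rfl⟩ := Finset.mem_add.1 hx
      obtain ⟨y'', hy', b', hb', he'⟩ := Finset.mem_add.1 hx'
      obtain ⟨a, ha, rfl⟩ := Finset.mem_image.1 hy
      obtain ⟨a', ha', rfl⟩ := Finset.mem_image.1 hy'
      obtain ⟨k1, hk1⟩ := (Finset.mem_filter.1 ha).2
      obtain ⟨k2, hk2⟩ := (Finset.mem_filter.1 ha').2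
      obtain ⟨k3, hk3⟩ := (Finset.mem_filter.1 hb).2
      obtain ⟨k4, hk4⟩ := (Finset.mem_filter.1 hb').2
      refine ⟨e s * (k2 - k1) + (k4 - k3), ?_⟩
      have e1 : w.1 = a - Q * k1 := by linarith
      have e2 : w'.1 = a' - Q * k2 := by linarith
      have e3 : w.2 = b - Q * k3 := by linarith
      have e4 : w'.2 = b' - Q * k4 := by linarith
      rw [e1, e2, e3, e4]
      have e5 : b' = e s * a + b - e s * a' := by linarith
      rw [e5]
      ring
    have h1 : ∑ w ∈ V, (D (e s) w).card = (V.biUnion (D (e s))).card :=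
      (Finset.card_biUnion hdisj).symm
    have h2 : (V.biUnion (D (e s))).card ≤ (dil (e s) X + B).card :=
      Finset.card_le_card (Finset.biUnion_subset.2 (hDsub _))
    calc ∑ w ∈ V, ((D (e s) w).card : ℝ) = ((∑ w ∈ V, (D (e s) w).card : ℕ) : ℝ) := by
          push_cast; rfl
      _ ≤ _ := by rw [h1]; exact_mod_cast h2
  -- the number of bad sets
  set bad : Finset (Finset ι) := W.powerset.filter fun s => ¬ good s with hbad
  have hN : (0 : ℝ) < 2 ^ W.card := by positivity
  have hpair : ∀ w ∈ V, ∀ w' ∈ V, w ≠ w' → ((W.powerset.filter fun s =>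
      Q ∣ e s * (w.1 - w'.1) + (w.2 - w'.2)).card : ℝ) ≤ κ * 2 ^ W.card := by
    intro w hw w' hw' hne
    rcases (W.powerset.filter fun s =>
      Q ∣ e s * (w.1 - w'.1) + (w.2 - w'.2)).eq_empty_or_nonempty with h0 | ⟨s0, hs0⟩
    · rw [h0]; simp; positivity
    · refine le_trans (Nat.cast_le.2 (Finset.card_le_card ?_)) (hκ (e s0))
      intro s hs
      rw [Finset.mem_filter] at hs hs0 ⊢
      refine ⟨hs.1, ?_⟩
      rw [hV, Finset.mem_product] at hw hw'
      have h1 : Q ∣ (e s - e s0) * (w.1 - w'.1) := by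
        have := dvd_sub hs.2 hs0.2
        have e' : e s * (w.1 - w'.1) + (w.2 - w'.2) - (e s0 * (w.1 - w'.1) + (w.2 - w'.2)) =
          (e s - e s0) * (w.1 - w'.1) := by ring
        rwa [e'] at this
      by_contra hcon
      have h4 : (p : ℤ) ^ I ∣ w.1 - w'.1 := pow_dvd_of hp (by rw [← hQ]; exact h1) hcon
      have h5 : w.1 = w'.1 := hTi _ hw.1 _ hw'.1 h4
      have h6 : Q ∣ w.2 - w'.2 := by
        have := hs.2
        rw [h5, sub_self, mul_zero, zero_add] at this
        exact this
      have h7 : w.2 = w'.2 := hUi _ hw.2 _ hw'.2 h6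
      exact hne (Prod.ext h5 h7)
  have hbadc : (bad.card : ℝ) ≤ β * 2 ^ W.card := by
    have h1 : bad ⊆ (V ×ˢ V).biUnion fun a => if a.1 = a.2 then ∅ else
        W.powerset.filter fun s => Q ∣ e s * (a.1.1 - a.2.1) + (a.1.2 - a.2.2) := by
      intro s hs
      rw [hbad, Finset.mem_filter] at hs
      obtain ⟨hsP, hs⟩ := hs
      simp only [hgood] at hs
      push Not at hs
      obtain ⟨w, hw, w', hw', hd, hne⟩ := hs
      rw [Finset.mem_biUnion]
      refine ⟨(w, w'), Finset.mk_mem_product hw hw', ?_⟩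
      rw [if_neg hne, Finset.mem_filter]
      exact ⟨hsP, hd⟩
    have h2 : (bad.card : ℝ) ≤ (V.card * V.card) * (κ * 2 ^ W.card) := by
      calc (bad.card : ℝ) ≤ ∑ a ∈ V ×ˢ V, (((if a.1 = a.2 then ∅ else
            W.powerset.filter fun s => Q ∣ e s * (a.1.1 - a.2.1) + (a.1.2 - a.2.2)).card : ℕ) : ℝ) := by
            exact_mod_cast (Finset.card_le_card h1).trans Finset.card_biUnion_le
        _ ≤ ∑ a ∈ V ×ˢ V, κ * 2 ^ W.card := by
            refine Finset.sum_le_sum fun a ha => ?_
            rw [Finset.mem_product] at ha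
            split_ifs with h
            · simp; positivity
            · exact hpair _ ha.1 _ ha.2 h
        _ = (V.card * V.card) * (κ * 2 ^ W.card) := by
            rw [Finset.sum_const, Finset.card_product, nsmul_eq_mul]
            push_cast; ring
    refine h2.trans ?_
    have h5 : (V.card : ℝ) * V.card * κ ≤ β := by
      rw [hVc]; nlinarith
    nlinarith
  -- averaging
  have hlogW : 0 ≤ Real.log V.card := Real.log_nonneg hVc1
  have hsum : (1 - β) * 2 ^ W.card * Real.log V.card +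
      ∑ s ∈ W.powerset, (∑ w ∈ V, Real.log ((D (e s) w).card : ℝ)) / V.card ≤
      ∑ s ∈ W.powerset, Real.log ((dil (e s) X + B).card : ℝ) := by
    have h1 : ∑ s ∈ W.powerset, ((∑ w ∈ V, Real.log ((D (e s) w).card : ℝ)) / V.card +
        if good s then Real.log V.card else 0) ≤
        ∑ s ∈ W.powerset, Real.log ((dil (e s) X + B).card : ℝ) := by
      refine Finset.sum_le_sum fun s _ => ?_
      split_ifs with h
      · have := hgood_case s h; linarith
      · rw [add_zero]; exact hbad_case s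
    rw [Finset.sum_add_distrib, ← Finset.sum_filter, Finset.sum_const, nsmul_eq_mul] at h1
    have h2 : ((W.powerset.filter good).card : ℝ) + bad.card = 2 ^ W.card := by
      have := Finset.card_filter_add_card_filter_not (s := W.powerset) good
      rw [Finset.card_powerset] at this
      exact_mod_cast this
    have h3 : (1 - β) * 2 ^ W.card ≤ ((W.powerset.filter good).card : ℝ) := by linarith
    have h4 := mul_le_mul_of_nonneg_right h3 hlogW
    linarith
  have hlog : Real.log V.card = Real.log T.card + Real.log U.card := by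
    rw [hVc, Real.log_mul hTc.ne' hUc.ne']
  rw [← hlog, ← hVc]
  have hexp : ∑ t ∈ T, ∑ v ∈ U, mu x y W (cls Q X t) (cls Q B v) =
      (∑ s ∈ W.powerset, ∑ w ∈ V, Real.log ((D (e s) w).card : ℝ)) / 2 ^ W.card := by
    rw [hV, ← Finset.sum_product', Finset.sum_comm, Finset.sum_div]
    rfl
  rw [hexp]
  unfold mu
  rw [le_div_iff₀ hN]
  rw [← Finset.sum_div] at hsum
  have e' : ((1 - β) * Real.log V.card + (∑ s ∈ W.powerset, ∑ w ∈ V,
      Real.log ((D (e s) w).card : ℝ)) / 2 ^ W.card / V.card) * 2 ^ W.card =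
      (1 - β) * 2 ^ W.card * Real.log V.card +
      (∑ s ∈ W.powerset, ∑ w ∈ V, Real.log ((D (e s) w).card : ℝ)) / V.card := by
    field_simp
  rw [e']
  exact hsum

end Pool.Agent.T2h69.GE
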